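import Mathlib
import Pool.Agent.Helper398.SParts
import Pool.Agent.Helper774.SS.End4

namespace Pool.Agent.Results.MP_116850_co.LargePrimesGood

/-- The norm of a set of residues: the sum of the absolute values of the representatives
in `(-p/2, p/2]`. -/
def norm {p : ℕ} (A : Finset (ZMod p)) : ℤ := ∑ a ∈ A, |ZMod.valMinAbs a|

/-- `A` is spanning: every residue is a sum of distinct elements of `A`, the empty sum allowed. -/
def Spanning {p : ℕ} (A : Finset (ZMod p)) : Prop :=
  ∀ x : ZMod p, ∃ B : Finset (ZMod p), B ⊆ A ∧ ∑ b ∈ B, b = x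

/-- The dilate `b · A`. -/
def dilate {p : ℕ} (b : ZMod p) (A : Finset (ZMod p)) : Finset (ZMod p) :=
  A.image (fun a => b * a)

/-- `p` is good: every non-spanning `A` with `⌊2 √(p - 2)⌋` elements has a dilate of norm at
most `p - 2`. -/
def Good (p : ℕ) : Prop :=
  ∀ A : Finset (ZMod p), A.card = ⌊2 * Real.sqrt ((p : ℝ) - 2)⌋₊ → ¬ Spanning A →
    ∃ b : ZMod p, b ≠ 0 ∧ norm (dilate b A) ≤ (p : ℤ) - 2

/-- All sufficiently large primes are good; only finitely many primes are not good. -/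
theorem result :
    (∃ p₀ : ℕ, ∀ p : ℕ, p.Prime → p₀ < p → Good p) ∧ {p : ℕ | p.Prime ∧ ¬ Good p}.Finite := by
  have main : ∃ p₀ : ℕ, ∀ p : ℕ, p.Prime → p₀ < p → Good p := by
    obtain ⟨p₀, h⟩ := Pool.Agent.Helper774.SS.assemble
      (Pool.Agent.Helper398.structure_S (1 / 100) (by norm_num)) Pool.Agent.Helper398.zero_Z
    refine ⟨p₀, ?_⟩
    intro p hp hp0 A hA hS
    unfold Spanning at hS
    push Not at hS
    obtain ⟨x, hx⟩ := hS
    exact (h p hp hp0 A hA).mp ⟨x, fun B hB _ => hx B hB⟩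
  refine ⟨main, ?_⟩
  obtain ⟨p₀, h⟩ := main
  apply (Set.finite_Iic p₀).subset
  rintro p ⟨hp, hG⟩
  rw [Set.mem_Iic]
  by_contra hcon
  push Not at hcon
  exact hG (h p hp hcon)

end Pool.Agent.Results.MP_116850_co.LargePrimesGood
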